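import Mathlib

set_option autoImplicit false

/-!
`n_4(k) ≤ 8(k-2)` for every `k ≥ 4`; hence `n_r(k) = 2r(k-1)` fails for `r = 4` and all `k ≥ 4`.

Vertices are triples `(j, a, t)` with a type `j ∈ {0,1,2,3}`, a side `a ∈ {0,1}` and an index
`t < s`, where `s = k - 2`.  Let `e` be the 0/1 matrix of the tournament on the types in which
type `0` beats the cyclic triangle `1 → 2 → 3 → 1`.  Two vertices of the same type get this type as
their colour.  Two vertices of different types `j, l` with different indices get colour `l` if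
`b = a + e l j` and `j` otherwise (exactly one of `b = a + e l j`, `a = b + e j l` holds).
The six-coloured edges between vertices with equal indices are decomposed into triangles
`T_i^c = {(j, c + e i j, t) : j ≠ i}`, and `T_i^c` gets colour `i`.  Then
`{(i, c, t') : t' ≠ t} ∪ T_i^c` is a clique of colour `i` with `s + 2 = k` vertices, and these
cliques meet every vertex in every colour.
-/

namespace Pool.Agent.Results.MP_7ae2b6_co.FourColours

open Finset

/-- `S` is a monochromatic clique of colour `i` under the edge colouring `c`. -/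
def IsMonoClique {V : Type} {r : ℕ} (c : Sym2 V → Fin r) (i : Fin r) (S : Finset V) : Prop :=
  ∀ x ∈ S, ∀ y ∈ S, x ≠ y → c s(x, y) = i

/-- The colouring `c` of the complete graph on `V` with `r` colours is `k`-enabling: every vertex
lies in a monochromatic clique of size `k` of every colour. -/
def Enabling {V : Type} {r : ℕ} (c : Sym2 V → Fin r) (k : ℕ) : Prop :=
  ∀ (v : V) (i : Fin r), ∃ S : Finset V, S.card = k ∧ v ∈ S ∧ IsMonoClique c i S

/-- `n_r(k)`: the least positive order of a complete graph with a `k`-enabling colouring with `r`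
colours. -/
noncomputable def nmin (r k : ℕ) : ℕ :=
  sInf {n | 0 < n ∧ ∃ c : Sym2 (Fin n) → Fin r, Enabling c k}

/-- The tournament. -/
def e (i j : Fin 4) : Fin 2 :=
  match i, j with
  | 0, 1 => 1
  | 0, 2 => 1
  | 0, 3 => 1
  | 1, 2 => 1
  | 2, 3 => 1
  | 3, 1 => 1
  | _, _ => 0

/-- `i` is the colour of the edge joining `p` and `q` with equal indices. -/
def cond (i : Fin 4) (p q : Fin 4 × Fin 2) : Bool :=
  decide (i ≠ p.1) && decide (i ≠ q.1) && decide (p.2 + e i p.1 = q.2 + e i q.1)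

/-- The colour of an edge joining a vertex over `p` and a vertex over `q`; the Boolean tells whether
their indices are equal. -/
def g (p q : Fin 4 × Fin 2) (b : Bool) : Fin 4 :=
  if p.1 = q.1 then p.1
  else if b then
    if cond 0 p q then 0 else if cond 1 p q then 1 else if cond 2 p q then 2 else 3
  else if p.2 + e q.1 p.1 = q.2 then q.1 else p.1

theorem g_symm : ∀ p q b, g p q b = g q p b := by decide +kernel

/-- The colouring. -/
def col (s : ℕ) : Sym2 ((Fin 4 × Fin 2) × Fin s) → Fin 4 :=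
  Sym2.lift ⟨fun u v => g u.1 v.1 (decide (u.2 = v.2)), by
    intro u v
    change g u.1 v.1 (decide (u.2 = v.2)) = g v.1 u.1 (decide (v.2 = u.2))
    rw [g_symm, decide_eq_decide.2 (eq_comm : u.2 = v.2 ↔ v.2 = u.2)]⟩

theorem g_own : ∀ (i : Fin 4) (c : Fin 2) (b : Bool), g (i, c) (i, c) b = i := by decide +kernel

theorem g_base : ∀ (i : Fin 4) (c : Fin 2) (j : Fin 4), j ≠ i →
    g (i, c) (j, c + e i j) false = i := by decide +kernel

theorem g_tri : ∀ (i : Fin 4) (c : Fin 2) (j l : Fin 4), j ≠ i → l ≠ i → j ≠ l →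
    g (j, c + e i j) (l, c + e i l) true = i := by decide +kernel

theorem e_add : ∀ (i j : Fin 4) (a : Fin 2), a + e i j + e i j = a := by decide +kernel

/-- The cliques. -/
def clique (s : ℕ) (i : Fin 4) (c : Fin 2) (t : Fin s) : Finset ((Fin 4 × Fin 2) × Fin s) :=
  (univ.filter (fun t' => t' ≠ t)).image (fun t' => ((i, c), t')) ∪
    (univ.filter (fun j => j ≠ i)).image (fun j => ((j, c + e i j), t))

theorem mem_clique (s : ℕ) (i : Fin 4) (c : Fin 2) (t : Fin s) (x : (Fin 4 × Fin 2) × Fin s) :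
    x ∈ clique s i c t ↔ (∃ t', t' ≠ t ∧ ((i, c), t') = x) ∨ ∃ j, j ≠ i ∧ ((j, c + e i j), t) = x := by
  simp [clique]

theorem card_clique (s : ℕ) (i : Fin 4) (c : Fin 2) (t : Fin s) :
    (clique s i c t).card = s + 2 := by
  unfold clique
  rw [card_union_of_disjoint, card_image_of_injective, card_image_of_injective]
  · rw [filter_ne', filter_ne', card_erase_of_mem (mem_univ _), card_erase_of_mem (mem_univ _),
      card_univ, card_univ, Fintype.card_fin, Fintype.card_fin]
    have := t.pos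
    omega
  · intro a b h
    simpa using congrArg (fun z => z.1.1) h
  · intro a b h
    simpa using h
  · rw [Finset.disjoint_left]
    intro x hx hx'
    simp only [mem_image, mem_filter, mem_univ, true_and] at hx hx'
    obtain ⟨t', -, rfl⟩ := hx
    obtain ⟨j, hj, h⟩ := hx'
    exact hj (congrArg (fun z => z.1.1) h)

theorem mono_clique (s : ℕ) (i : Fin 4) (c : Fin 2) (t : Fin s) :
    IsMonoClique (col s) i (clique s i c t) := by
  intro x hx y hy hxy
  rw [mem_clique] at hx hy
  rcases hx with ⟨t', ht', rfl⟩ | ⟨j, hj, rfl⟩ <;> rcases hy with ⟨t'', ht'', rfl⟩ | ⟨l, hl, rfl⟩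
  · simp only [col, Sym2.lift_mk]
    exact g_own i c _
  · simp only [col, Sym2.lift_mk, decide_eq_false ht']
    exact g_base i c l hl
  · rw [Sym2.eq_swap]
    simp only [col, Sym2.lift_mk, decide_eq_false ht'']
    exact g_base i c j hj
  · simp only [col, Sym2.lift_mk, decide_true]
    apply g_tri i c j l hj hl
    rintro rfl
    exact hxy rfl

theorem enabling (s : ℕ) (hs : 2 ≤ s) : Enabling (col s) (s + 2) := by
  rintro ⟨⟨j, a⟩, t⟩ i
  by_cases h : i = j
  · subst h
    obtain ⟨t', ht'⟩ : ∃ t' : Fin s, t ≠ t' := by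
      by_cases h0 : t.val = 0
      · exact ⟨⟨1, by omega⟩, fun h => by rw [h] at h0; simp at h0⟩
      · exact ⟨⟨0, by omega⟩, fun h => h0 (by rw [h])⟩
    exact ⟨clique s i a t', card_clique s i a t', (mem_clique _ _ _ _ _).2 (Or.inl ⟨t, ht', rfl⟩),
      mono_clique s i a t'⟩
  · refine ⟨clique s i (a + e i j) t, card_clique _ _ _ _, (mem_clique _ _ _ _ _).2
      (Or.inr ⟨j, fun h' => h h'.symm, ?_⟩), mono_clique _ _ _ _⟩
    rw [e_add]

theorem enabling_fin (s : ℕ) (hs : 2 ≤ s) :
    ∃ c : Sym2 (Fin (8 * s)) → Fin 4, Enabling c (s + 2) := by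
  have hcard : Fintype.card ((Fin 4 × Fin 2) × Fin s) = 8 * s := by simp
  let f : (Fin 4 × Fin 2) × Fin s ≃ Fin (8 * s) := Fintype.equivFinOfCardEq hcard
  refine ⟨fun z => col s (Sym2.map f.symm z), ?_⟩
  intro v i
  obtain ⟨S, h1, h2, h3⟩ := enabling s hs (f.symm v) i
  refine ⟨S.map f.toEmbedding, by rw [card_map, h1], ?_, ?_⟩
  · rw [mem_map]
    exact ⟨f.symm v, h2, by simp⟩
  · intro x hx y hy hxy
    rw [mem_map] at hx hy
    obtain ⟨x', hx', rfl⟩ := hx
    obtain ⟨y', hy', rfl⟩ := hy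
    have hne : x' ≠ y' := fun h => hxy (by rw [h])
    simpa using h3 x' hx' y' hy' hne

/-- For every `k ≥ 4` there is a `k`-enabling colouring with four colours of the complete graph on
`8(k-2)` vertices; hence `n_4(k) ≤ 8(k-2) < 2·4·(k-1)`, and the statement of Q1 is false. -/
theorem result :
    (∀ k : ℕ, 4 ≤ k → (∃ c : Sym2 (Fin (8 * (k - 2))) → Fin 4, Enabling c k) ∧
      nmin 4 k ≤ 8 * (k - 2) ∧ nmin 4 k < 2 * 4 * (k - 1)) ∧
    ¬ (∀ r : ℕ, 2 ≤ r → ∃ k0 : ℕ, r ≤ k0 ∧ ∀ k : ℕ, k0 ≤ k → nmin r k = 2 * r * (k - 1)) := by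
  have h1 : ∀ k : ℕ, 4 ≤ k → (∃ c : Sym2 (Fin (8 * (k - 2))) → Fin 4, Enabling c k) ∧
      nmin 4 k ≤ 8 * (k - 2) ∧ nmin 4 k < 2 * 4 * (k - 1) := by
    intro k hk
    obtain ⟨s, rfl⟩ : ∃ s, k = s + 2 := ⟨k - 2, by omega⟩
    have h := enabling_fin s (by omega)
    have h2 : nmin 4 (s + 2) ≤ 8 * (s + 2 - 2) := by
      apply Nat.sInf_le
      exact ⟨by omega, h⟩
    exact ⟨h, h2, by omega⟩
  refine ⟨h1, ?_⟩
  intro h
  obtain ⟨k0, h4, hk⟩ := h 4 (by norm_num)
  have h2 := (h1 k0 h4).2.2
  rw [hk k0 le_rfl] at h2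
  exact lt_irrefl _ h2

end Pool.Agent.Results.MP_7ae2b6_co.FourColours
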